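import Pool.Agent.H445.FE.J
import Pool.Agent.H445.EllC

/-!
# Exponentials and logarithms: the cost of the field of definition
-/

set_option autoImplicit false

open Set Module MvPolynomial
open Pool.Agent.TH813.Rel (DF MK subset_cl rk_le_of_subset_cl cl_of_base exists_derF mem_cl)
open Pool.Agent.Y685
open Pool.Agent.Y776 (Tf lg lgL Tf_lin lg_lin ET ET_finite TfL TfL_apply Good good_der good_union
  countable_bad exists_chain grC Grad)
open Pool.Agent.W245.EB Pool.Agent.TH813.Ell H667R3 Pool.Agent.Y119.CB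

noncomputable section

namespace Pool.Agent.H445

/-- splitting a space of values -/
theorem finrank_split {M N N' : Type*} [AddCommGroup M] [Module ℂ M] [AddCommGroup N] [Module ℂ N]
    [FiniteDimensional ℂ N] [AddCommGroup N'] [Module ℂ N'] [FiniteDimensional ℂ N'] (Δ : Submodule ℂ M)
    (f : M →ₗ[ℂ] N) (g : M →ₗ[ℂ] N') :
    finrank ℂ (Δ.map f) ≤ finrank ℂ (Δ.map g) + finrank ℂ ((Δ ⊓ LinearMap.ker g).map f) := by
  set B := (Δ ⊓ LinearMap.ker g).map f with hB
  have h1 := finrank_map_le Δ g (B.mkQ ∘ₗ f) (by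
    intro D hD h0
    change B.mkQ (f D) = 0
    rw [Submodule.mkQ_apply, Submodule.Quotient.mk_eq_zero]
    exact ⟨D, ⟨hD, h0⟩, rfl⟩)
  rw [Submodule.map_comp] at h1
  set A := Δ.map f with hA
  have h2 := LinearMap.finrank_range_add_finrank_ker (B.mkQ.domRestrict A)
  rw [LinearMap.range_domRestrict] at h2
  have h3 : finrank ℂ (LinearMap.ker (B.mkQ.domRestrict A)) ≤ finrank ℂ B := by
    let φ : LinearMap.ker (B.mkQ.domRestrict A) →ₗ[ℂ] B :=
      (A.subtype ∘ₗ (LinearMap.ker (B.mkQ.domRestrict A)).subtype).codRestrict B (by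
        rintro ⟨x, hx⟩
        have h4 : B.mkQ (x : N) = 0 := hx
        rwa [Submodule.mkQ_apply, Submodule.Quotient.mk_eq_zero] at h4)
    refine LinearMap.finrank_le_finrank_of_injective (f := φ) ?_
    intro x y hxy
    exact Subtype.ext (Subtype.ext (congrArg (fun u : B => (u : N)) hxy))
  omega

/-- **A lower bound for the rank of a set over a closed field** -/
theorem ClE.typed {K : Subfield ℂ} (hK : ClE K) {L : PeriodPair} (hL2 : L.g₂ ∈ K) (hL3 : L.g₃ ∈ K) {N : ℕ}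
    {z : Fin N → ℂ} {S : Set ℂ} (hS : S.Finite) (X : Submodule ℚ ℂ) (hXf : FiniteDimensional ℚ X)
    (hXV : X ≤ Submodule.span ℚ (range z)) (hXK : ∀ x ∈ X, x ∈ K → x = 0)
    (hcl : ∀ D ∈ DF (IFd K), (∀ s ∈ S, D s = 0) → ∀ x ∈ X, D x = 0 ∧ D (Complex.exp x) = 0)
    (hinj : ∀ D ∈ DE K z, (∀ s ∈ S, D s = 0) → ∀ j, D (z j) = 0) :
    ((finrank ℚ X + finrank ℂ (Tan PE K (PhE z)) : ℕ) : ℕ∞) ≤ (MK (IFd K)).eRk S := by
  classical
  obtain ⟨κ, hE⟩ := exists_eig L
  set Δ := DE K z with hΔ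
  have hch := chain (L := L) (κ := κ) (K := IFd K) hE hL2 hL3 (Δ := Δ) (fun D hD => hD.1) _ X hXf
    rfl (fun D hD x hx => DE_span hD (hXV hx))
    (fun x hx hx0 => hK.moves z (fun h => hx0 (hXK x hx h)))
  obtain ⟨t, ht, hst⟩ := exists_tuple X
  have htX : ∀ i, t i ∈ X := fun i => hst ▸ Submodule.subset_span ⟨i, rfl⟩
  have hETf := ET_finite t
  have : Fintype S := hS.fintype
  have hch' : ((finrank ℚ X + finrank ℂ (Δ.map (eV X)) : ℕ) : ℕ∞) ≤ (MK (IFd K)).eRk (ET t) := by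
    refine hch.trans ?_
    rw [← eRk_EV (IFd K) t, hst]
  -- the closure
  have h1 : (MK (IFd K)).eRk (ET t ∪ S) ≤ (MK (IFd K)).eRk S := by
    apply rk_le_of_subset_cl
    rintro x (hx | hx)
    · rw [← mem_clo_iff]
      intro D hD h
      rcases hx with ⟨i, rfl⟩ | ⟨i, rfl⟩
      · exact (hcl D hD h _ (htX i)).1
      · exact (hcl D hD h _ (htX i)).2
    · exact subset_cl _ hx
  rw [rank_add hETf hS] at h1
  -- the directions which are constant on the space
  let evz : Derivation ℚ ℂ ℂ →ₗ[ℂ] (Fin N → ℂ) :=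
    { toFun := fun D j => D (z j)
      map_add' := fun _ _ => rfl
      map_smul' := fun _ _ => rfl }
  let evs : Derivation ℚ ℂ ℂ →ₗ[ℂ] (S → ℂ) :=
    { toFun := fun D s => D s
      map_add' := fun _ _ => rfl
      map_smul' := fun _ _ => rfl }
  have h2 : Tan PE K (PhE z) ≤ Δ.map evz := by
    intro v hv
    obtain ⟨D, hD, h5⟩ := Tan_DE hv
    exact ⟨D, hD, funext h5⟩
  have h3 := Submodule.finrank_mono h2
  have h4 := finrank_split Δ evz (eV X)
  have h5 : finrank ℂ ((Δ ⊓ LinearMap.ker (eV X)).map evz) ≤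
      finrank ℂ ((Δ ⊓ LinearMap.ker (eV X)).map evs) := by
    refine finrank_map_le _ evs evz ?_
    rintro D ⟨hD, -⟩ h0
    exact funext fun j => hinj D hD (fun s hs => congrFun h0 ⟨s, hs⟩) j
  have h6 : (Δ ⊓ LinearMap.ker (eV X)).map evs ≤
      LinearMap.range (evS (clo (IFd K) (ET t)) S) := by
    rintro _ ⟨D, ⟨hD, hD0⟩, rfl⟩
    have hD0' : ∀ x ∈ X, D x = 0 := fun x hx => LinearMap.congr_fun hD0 ⟨x, hx⟩
    refine ⟨⟨D, mem_DF_clo.2 ⟨hD.1, ?_⟩⟩, rfl⟩
    rintro x (⟨i, rfl⟩ | ⟨i, rfl⟩)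
    · exact hD0' _ (htX i)
    · have h7 : Tf D (t i) = 0 := DE_span hD (hXV (htX i))
      unfold Tf lg at h7
      rw [hD0' _ (htX i), zero_sub, neg_eq_zero] at h7
      exact (div_eq_zero_iff.1 h7).resolve_right (Complex.exp_ne_zero _)
  have h7 := Submodule.finrank_mono h6
  have h8 : ((finrank ℂ (LinearMap.range (evS (clo (IFd K) (ET t)) S)) : ℕ) : ℕ∞) =
      (MK (clo (IFd K) (ET t))).eRk S := rank_evS hS
  rw [← h8] at h1
  refine le_trans ?_ h1
  refine le_trans ?_ (add_le_add hch' le_rfl)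
  exact_mod_cast (by omega : finrank ℚ X + finrank ℂ (Tan PE K (PhE z)) ≤
    finrank ℚ X + finrank ℂ (Δ.map (eV X)) +
      finrank ℂ (LinearMap.range (evS (clo (IFd K) (ET t)) S)))

end Pool.Agent.H445
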