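import Pool.Agent.H445.GT.A

/-!
# Exponents and logarithms: reduction to a closed field
-/

set_option autoImplicit false

open Set Module MvPolynomial
open Pool.Agent.TH813.Rel (DF MK subset_cl rk_le_of_subset_cl cl_of_base exists_derF mem_cl)
open Pool.Agent.Y685
open Pool.Agent.Y776 (Tf lg lgL Tf_lin lg_lin ET ET_finite TfL TfL_apply Good good_der good_union
  countable_bad exists_chain grC Grad)
open Pool.Agent.W245.EB Pool.Agent.TH813.Ell H667R3 Pool.Agent.Y119.CB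

noncomputable section

namespace Pool.Agent.H445

/-- independent numbers `x` (exponents) and `y` (logarithms) with at most `r` numbers independent over `ℚ` among
`x`, `e^y` and at most `k` numbers independent over `C` among `x`, `y`, `e^x`, `e^y` -/
structure GT (C : IntermediateField ℚ ℂ) (a b r k : ℕ) (x : Fin a → ℂ) (y : Fin b → ℂ) : Prop where
  lx : LinearIndependent ℚ x
  ly : LinearIndependent ℚ y
  dj : ∀ u ∈ Submodule.span ℚ (range x), u ∈ Submodule.span ℚ (range y) → u = 0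
  ty : (MK (⊥ : IntermediateField ℚ ℂ)).eRk (range x ∪ EX y) ≤ (r : ℕ∞)
  rk : (MK C).eRk (ET x ∪ ET y) ≤ (k : ℕ∞)

variable {C : IntermediateField ℚ ℂ} {a b r k : ℕ} {x : Fin a → ℂ} {y : Fin b → ℂ}

theorem range_app {a b : ℕ} (x : Fin a → ℂ) (y : Fin b → ℂ) : range (Fin.append x y) = range x ∪ range y := by
  ext u
  constructor
  · rintro ⟨i, rfl⟩
    refine Fin.addCases (fun i => ?_) (fun i => ?_) i
    · rw [Fin.append_left]
      exact Or.inl ⟨i, rfl⟩
    · rw [Fin.append_right]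
      exact Or.inr ⟨i, rfl⟩
  · rintro (⟨i, rfl⟩ | ⟨i, rfl⟩)
    · exact ⟨Fin.castAdd b i, by rw [Fin.append_left]⟩
    · exact ⟨Fin.natAdd a i, by rw [Fin.append_right]⟩

/-- dimensions of sums -/
theorem finrank_sup_of {A B : Submodule ℚ ℂ} [FiniteDimensional ℚ A] [FiniteDimensional ℚ B]
    (h : ∀ u ∈ A, u ∈ B → u = 0) : finrank ℚ (A ⊔ B : Submodule ℚ ℂ) = finrank ℚ A + finrank ℚ B := by
  have h1 := Submodule.finrank_sup_add_finrank_inf_eq A B
  have h2 : A ⊓ B = ⊥ := by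
    rw [Submodule.eq_bot_iff]
    rintro u ⟨h3, h4⟩
    exact h u h3 h4
  rw [h2, finrank_bot, add_zero] at h1
  exact h1

theorem der_span {D : Derivation ℚ ℂ ℂ} {S : Set ℂ} (hS : ∀ s ∈ S, D s = 0) {u : ℂ}
    (hu : u ∈ Submodule.span ℚ S) : D u = 0 := by
  induction hu using Submodule.span_induction with
  | mem x hx => exact hS x hx
  | zero => exact map_zero D
  | add x y _ _ hx hy => rw [map_add, hx, hy, add_zero]
  | smul c x _ hx => rw [D.map_smul, hx, smul_zero]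

theorem der_exp_span {D : Derivation ℚ ℂ ℂ} {n : ℕ} {y : Fin n → ℂ} (hS : ∀ j, D (Complex.exp (y j)) = 0) {v : ℂ}
    (hv : v ∈ Submodule.span ℚ (range y)) : D (Complex.exp v) = 0 := by
  rw [Submodule.mem_span_range_iff_exists_fun] at hv
  obtain ⟨q, rfl⟩ := hv
  have h1 : lg D (∑ j, q j • y j) = 0 := by
    rw [lg_lin]
    refine Finset.sum_eq_zero fun j _ => ?_
    have h2 : lg D (y j) = 0 := by
      unfold lg
      rw [hS j, zero_div]
    rw [h2, mul_zero]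
  unfold lg at h1
  exact (div_eq_zero_iff.1 h1).resolve_right (Complex.exp_ne_zero _)

/-- the number of the directions -/
theorem Tan_le_compl {K : Subfield ℂ} {N : ℕ} {z : Fin N → ℂ} {V₁ : Submodule ℚ ℂ}
    (hf : FiniteDimensional ℚ V₁) (hdec : ∀ j, ∃ u ∈ KQ K, ∃ v ∈ V₁, z j = u + v) :
    finrank ℂ (Tan PE K (PhE z)) ≤ finrank ℚ V₁ := by
  let evz : Derivation ℚ ℂ ℂ →ₗ[ℂ] (Fin N → ℂ) :=
    { toFun := fun D j => D (z j)
      map_add' := fun _ _ => rfl
      map_smul' := fun _ _ => rfl }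
  have h2 : Tan PE K (PhE z) ≤ (DE K z).map evz := by
    intro v hv
    obtain ⟨D, hD, h5⟩ := Tan_DE hv
    exact ⟨D, hD, funext h5⟩
  refine (Submodule.finrank_mono h2).trans ((finrank_map_le (DE K z) (eV V₁) evz ?_).trans ?_)
  · intro D hD h0
    funext j
    obtain ⟨u, hu, v, hv, huv⟩ := hdec j
    change D (z j) = 0
    have h3 : D v = 0 := LinearMap.congr_fun h0 ⟨v, hv⟩
    have h4 : D u = 0 := hD.1 _ hu
    rw [huv, map_add, h3, h4, add_zero]
  · refine (Submodule.finrank_le _).trans ?_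
    rw [Module.finrank_linearMap, Module.finrank_self, mul_one]

/-- **Reduction of a point to the closed field** -/
theorem GT.reduce (h : GT C a b r k x y) {K : Subfield ℂ} (hK : ClE K) {L : PeriodPair} (hL2 : L.g₂ ∈ K)
    (hL3 : L.g₃ ∈ K) (hC : C ≤ IFd K) :
    (∃ (a' b' r' k' : ℕ) (x' : Fin a' → ℂ) (y' : Fin b' → ℂ), a' ≤ a ∧ b' ≤ b ∧
      a' + b' + finrank ℂ (Tan PE K (PhE (Fin.append x y))) ≤ a + b ∧
      r' + finrank ℂ (Tan PE K (PhE (Fin.append x y))) ≤ r ∧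
      k' + (a + b - (a' + b')) + finrank ℂ (Tan PE K (PhE (Fin.append x y))) ≤ k ∧ GT C a' b' r' k' x' y') ∧
    (finrank ℂ (Tan PE K (PhE (Fin.append x y))) = 0 → ∀ j, Fin.append x y j ∈ K) := by
  classical
  set z := Fin.append x y with hz
  obtain ⟨V₁, hV₁f, hV₁V, hdec, hcost, hzero⟩ := hK.cost hL2 hL3 z
  set δ := finrank ℂ (Tan PE K (PhE z)) with hδ
  refine ⟨?_, hzero⟩
  set X : Submodule ℚ ℂ := Submodule.span ℚ (range x) with hX
  set Y : Submodule ℚ ℂ := Submodule.span ℚ (range y) with hY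
  set V : Submodule ℚ ℂ := Submodule.span ℚ (range z) with hV
  have hXf : FiniteDimensional ℚ X := FiniteDimensional.span_of_finite ℚ (finite_range x)
  have hYf : FiniteDimensional ℚ Y := FiniteDimensional.span_of_finite ℚ (finite_range y)
  have hVf : FiniteDimensional ℚ V := FiniteDimensional.span_of_finite ℚ (finite_range z)
  have hVXY : V = X ⊔ Y := by
    rw [hV, hz, range_app, Submodule.span_union]
  have hdX : finrank ℚ X = a := by rw [hX, finrank_span_eq_card h.lx, Fintype.card_fin]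
  have hdY : finrank ℚ Y = b := by rw [hY, finrank_span_eq_card h.ly, Fintype.card_fin]
  have hdV : finrank ℚ V = a + b := by
    have h1 := finrank_sup_of (A := X) (B := Y) h.dj
    rw [← hVXY, hdX, hdY] at h1
    exact h1
  set X₀ : Submodule ℚ ℂ := X ⊓ KQ K with hX₀
  set Y₀ : Submodule ℚ ℂ := Y ⊓ KQ K with hY₀
  set V₀ : Submodule ℚ ℂ := V ⊓ KQ K with hV₀
  have lX₀ : X₀ ≤ X := inf_le_left
  have lY₀ : Y₀ ≤ Y := inf_le_left
  have lV₀ : V₀ ≤ V := inf_le_left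
  have hX₀f : FiniteDimensional ℚ X₀ := Submodule.finiteDimensional_of_le lX₀
  have hY₀f : FiniteDimensional ℚ Y₀ := Submodule.finiteDimensional_of_le lY₀
  have hV₀f : FiniteDimensional ℚ V₀ := Submodule.finiteDimensional_of_le lV₀
  have hXV : X ≤ V := by rw [hVXY]; exact le_sup_left
  have hYV : Y ≤ V := by rw [hVXY]; exact le_sup_right
  have hle : X₀ ⊔ Y₀ ≤ V₀ := sup_le (inf_le_inf_right _ hXV) (inf_le_inf_right _ hYV)
  obtain ⟨W, hWV, hWd, hWc, hWs⟩ := exists_rel_complk hle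
  have hWf : FiniteDimensional ℚ W := Submodule.finiteDimensional_of_le hWV
  have hWK : ∀ u ∈ W, u ∈ K := fun u hu => (hWV hu).2
  have hd0 : finrank ℚ (X₀ ⊔ Y₀ : Submodule ℚ ℂ) = finrank ℚ X₀ + finrank ℚ Y₀ :=
    finrank_sup_of fun u h1 h2 => h.dj u h1.1 h2.1
  set U₀ : Submodule ℚ ℂ := X₀ ⊔ W with hU₀
  have hU₀f : FiniteDimensional ℚ U₀ := by rw [hU₀]; infer_instance
  have hdU : finrank ℚ U₀ = finrank ℚ X₀ + finrank ℚ W :=
    finrank_sup_of fun u h1 h2 => hWd u h2 (Submodule.mem_sup_left h1)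
  have hU₀V₀ : U₀ ≤ V₀ := sup_le (le_sup_left.trans hle) hWV
  -- the new exponents are independent of the logarithms
  have hUY : ∀ u ∈ U₀, u ∈ Y → u = 0 := by
    intro u hu huY
    obtain ⟨p, hp, q, hq, rfl⟩ := Submodule.mem_sup.1 hu
    have h1 : p + q ∈ Y₀ := ⟨huY, (hU₀V₀ hu).2⟩
    have h2 : q = 0 := by
      apply hWd q hq
      have h3 : q = (p + q) - p := by ring
      rw [h3]
      exact sub_mem (Submodule.mem_sup_right h1) (Submodule.mem_sup_left hp)
    rw [h2, add_zero] at huY ⊢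
    exact h.dj p hp.1 huY
  have hdUY := finrank_sup_of hUY
  have hUYV : U₀ ⊔ Y ≤ V := sup_le (hU₀V₀.trans inf_le_left) hYV
  have ha' : finrank ℚ U₀ ≤ a := by
    have h1 := Submodule.finrank_mono hUYV
    rw [hdUY, hdV, hdY] at h1
    omega
  have hb' : finrank ℚ Y₀ ≤ b := by
    have h1 := Submodule.finrank_mono lY₀
    omega
  have hdV₀ : finrank ℚ U₀ + finrank ℚ Y₀ = finrank ℚ V₀ := by omega
  -- the moving space
  set X' : Submodule ℚ ℂ := X ⊓ (W ⊔ Y) with hX'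
  have hX'f : FiniteDimensional ℚ X' := Submodule.finiteDimensional_of_le (inf_le_left : X' ≤ X)
  have hWY : ∀ u ∈ W, u ∈ Y → u = 0 := fun u h1 h2 => hUY u (Submodule.mem_sup_right h1) h2
  have hdX' : finrank ℚ X' = finrank ℚ W := by
    have h1 := Submodule.finrank_sup_add_finrank_inf_eq X (W ⊔ Y)
    have h2 : X ⊔ (W ⊔ Y) = V := by
      apply le_antisymm
      · exact sup_le hXV (sup_le (hWV.trans inf_le_left) hYV)
      · rw [hVXY]
        exact sup_le le_sup_left (le_sup_right.trans le_sup_right)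
    have h3 := finrank_sup_of hWY
    rw [h2, h3, hdV, hdX, hdY] at h1
    rw [hX']
    omega
  have hX'K : ∀ u ∈ X', u ∈ K → u = 0 := by
    rintro u ⟨huX, hu⟩ huK
    obtain ⟨p, hp, q, hq, hpq⟩ := Submodule.mem_sup.1 hu
    have h1 : q ∈ K := by
      have h2 : q = u - p := by rw [← hpq]; ring
      rw [h2]
      exact sub_mem huK (hWK p hp)
    have h2 : p = 0 := by
      apply hWd p hp
      have h3 : p = u - q := by rw [← hpq]; ring
      rw [h3]
      exact sub_mem (Submodule.mem_sup_left ⟨huX, huK⟩) (Submodule.mem_sup_right ⟨hq, h1⟩)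
    rw [h2, zero_add] at hpq
    exact h.dj u huX (hpq ▸ hq)
  -- the rank of the field of definition
  have hSf : (range x ∪ EX y).Finite := (finite_range x).union (EX_finite y)
  have htyp := hK.typed hL2 hL3 (z := z) hSf X' hX'f (inf_le_left.trans hXV) hX'K (by
    intro D hD hS u hu
    obtain ⟨huX, hu⟩ := hu
    refine ⟨der_span (fun s hs => hS s (Or.inl hs)) huX, ?_⟩
    obtain ⟨p, hp, q, hq, rfl⟩ := Submodule.mem_sup.1 hu
    have h1 : D (Complex.exp p) = 0 := hD _ (hK.exp p (hWK p hp))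
    have h2 : D (Complex.exp q) = 0 := der_exp_span (fun j => hS _ (Or.inr ⟨j, rfl⟩)) hq
    rw [Complex.exp_add, D.leibniz, h1, h2, smul_zero, smul_zero, add_zero]) (by
    intro D hD hS j
    rw [hz]
    refine Fin.addCases (fun j => ?_) (fun j => ?_) j
    · rw [Fin.append_left]
      exact hS _ (Or.inl ⟨j, rfl⟩)
    · rw [Fin.append_right]
      have h1 := hD.2 (Fin.natAdd a j)
      rw [hz, Fin.append_right] at h1
      unfold Tf lg at h1
      rw [hS _ (Or.inr ⟨j, rfl⟩), zero_div, sub_zero] at h1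
      exact h1)
  rw [hdX'] at htyp
  -- bases
  obtain ⟨x₀, hx₀, hsx₀⟩ := exists_tuple X₀
  obtain ⟨w₀, hw₀, hsw₀⟩ := exists_tuple W
  obtain ⟨x', hx', hsx'⟩ := exists_tuple U₀
  obtain ⟨y', hy', hsy'⟩ := exists_tuple Y₀
  have mx₀ : ∀ i, x₀ i ∈ X₀ := fun i => hsx₀ ▸ Submodule.subset_span ⟨i, rfl⟩
  have mx' : ∀ i, x' i ∈ U₀ := fun i => hsx' ▸ Submodule.subset_span ⟨i, rfl⟩
  have my' : ∀ i, y' i ∈ Y₀ := fun i => hsy' ▸ Submodule.subset_span ⟨i, rfl⟩
  have hnat : ∀ (F : IntermediateField ℚ ℂ) {S : Set ℂ}, S.Finite → ∃ r : ℕ, (MK F).eRk S = r := by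
    intro F S hS
    have : (MK F).eRk S ≠ ⊤ := by
      rw [← lt_top_iff_ne_top]
      exact lt_of_le_of_lt ((MK _).eRk_le_encard _) hS.encard_lt_top
    exact ⟨_, (ENat.natCast_toNat this).symm⟩
  -- the field of definition of the new tuple
  have hAf : (range x₀ ∪ EX y').Finite := (finite_range x₀).union (EX_finite y')
  have h1 : (MK (⊥ : IntermediateField ℚ ℂ)).eRk ((range x₀ ∪ EX y') ∪ (range x ∪ EX y)) ≤ (r : ℕ∞) := by
    refine le_trans (rk_le_of_subset_cl ?_) h.ty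
    rintro u ((⟨i, rfl⟩ | ⟨i, rfl⟩) | hu)
    · rw [← mem_clo_iff]
      intro D hD hS
      exact der_span (fun s hs => hS s (Or.inl hs)) (mx₀ i).1
    · rw [← mem_clo_iff]
      intro D hD hS
      exact der_exp_span (fun j => hS _ (Or.inr ⟨j, rfl⟩)) (my' i).1
    · exact subset_cl _ hu
  rw [rank_add hAf hSf] at h1
  have h2 : clo (⊥ : IntermediateField ℚ ℂ) (range x₀ ∪ EX y') ≤ IFd K := by
    apply hK.clo_le bot_le
    rintro u (⟨i, rfl⟩ | ⟨i, rfl⟩)
    · exact (mx₀ i).2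
    · exact hK.exp _ (my' i).2
  have h3 := rank_mono_base h2 hSf
  obtain ⟨ρ₀, hρ₀⟩ := hnat (⊥ : IntermediateField ℚ ℂ) hAf
  obtain ⟨ρ₁, hρ₁⟩ := hnat (IFd K) hSf
  obtain ⟨ρ₂, hρ₂⟩ := hnat (clo (⊥ : IntermediateField ℚ ℂ) (range x₀ ∪ EX y')) hSf
  rw [hρ₀, hρ₂] at h1
  rw [hρ₁, hρ₂] at h3
  rw [hρ₁] at htyp
  have g1 : ρ₀ + ρ₂ ≤ r := by exact_mod_cast h1
  have g2 : ρ₁ ≤ ρ₂ := by exact_mod_cast h3
  have g3 : finrank ℚ W + δ ≤ ρ₁ := by exact_mod_cast htyp
  have h4 : (MK (⊥ : IntermediateField ℚ ℂ)).eRk (range x' ∪ EX y') ≤ ((ρ₀ + finrank ℚ W : ℕ) : ℕ∞) := by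
    have h5 : range x' ∪ EX y' ⊆ (MK (⊥ : IntermediateField ℚ ℂ)).closure ((range x₀ ∪ EX y') ∪ range w₀) := by
      rintro u (⟨i, rfl⟩ | hu)
      · rw [← mem_clo_iff]
        intro D hD hS
        have h6 : x' i ∈ Submodule.span ℚ (range x₀ ∪ range w₀) := by
          rw [Submodule.span_union, hsx₀, hsw₀]
          exact mx' i
        refine der_span (fun s hs => ?_) h6
        rcases hs with hs | hs
        · exact hS s (Or.inl (Or.inl hs))
        · exact hS s (Or.inr hs)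
      · exact subset_cl _ (Or.inl (Or.inr hu))
    have h6 := (rk_le_of_subset_cl h5).trans
      ((MK (⊥ : IntermediateField ℚ ℂ)).eRk_union_le_eRk_add_encard _ _)
    have h7 : (range w₀).encard ≤ ((finrank ℚ W : ℕ) : ℕ∞) := by
      rw [← image_univ]
      refine (encard_image_le _ _).trans ?_
      rw [encard_univ]
      simp
    rw [hρ₀] at h6
    refine h6.trans ?_
    rw [Nat.cast_add]
    exact add_le_add le_rfl h7
  -- all the numbers
  have hBf : (ET x' ∪ ET y').Finite := (ET_finite x').union (ET_finite y')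
  have hEz : ET z = ET x ∪ ET y := ET_append x y
  have h5 : (MK C).eRk ((ET x' ∪ ET y') ∪ ET z) ≤ (k : ℕ∞) := by
    refine le_trans (rk_le_of_subset_cl ?_) (hEz ▸ h.rk)
    have h6 : ∀ u ∈ V, u ∈ (MK C).closure (ET z) ∧ Complex.exp u ∈ (MK C).closure (ET z) := fun u hu =>
      ⟨EV_subset_cl C z (Or.inl hu), EV_subset_cl C z (Or.inr ⟨u, hu, rfl⟩)⟩
    rintro u (((⟨i, rfl⟩ | ⟨i, rfl⟩) | (⟨i, rfl⟩ | ⟨i, rfl⟩)) | hu)
    · exact (h6 _ (hU₀V₀ (mx' i)).1).1
    · exact (h6 _ (hU₀V₀ (mx' i)).1).2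
    · exact (h6 _ (hYV (my' i).1)).1
    · exact (h6 _ (hYV (my' i).1)).2
    · exact subset_cl _ hu
  rw [rank_add hBf (ET_finite z)] at h5
  have h6 : clo C (ET x' ∪ ET y') ≤ IFd K := by
    apply hK.clo_le hC
    rintro u ((⟨i, rfl⟩ | ⟨i, rfl⟩) | (⟨i, rfl⟩ | ⟨i, rfl⟩))
    · exact (hU₀V₀ (mx' i)).2
    · exact hK.exp _ (hU₀V₀ (mx' i)).2
    · exact (my' i).2
    · exact hK.exp _ (my' i).2
  have h7 := rank_mono_base h6 (ET_finite z)
  obtain ⟨κ₀, hκ₀⟩ := hnat C hBf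
  obtain ⟨κ₁, hκ₁⟩ := hnat (IFd K) (ET_finite z)
  obtain ⟨κ₂, hκ₂⟩ := hnat (clo C (ET x' ∪ ET y')) (ET_finite z)
  rw [hκ₀, hκ₂] at h5
  rw [hκ₁, hκ₂] at h7
  rw [hκ₁] at hcost
  have g4 : κ₀ + κ₂ ≤ k := by exact_mod_cast h5
  have g5 : κ₁ ≤ κ₂ := by exact_mod_cast h7
  have g6 : finrank ℚ V₁ + δ ≤ κ₁ := by exact_mod_cast hcost
  -- the complement
  have g7 : a + b ≤ finrank ℚ V₀ + finrank ℚ V₁ := by
    have h8 : V ≤ V₀ ⊔ V₁ := by
      rw [hV, Submodule.span_le]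
      rintro _ ⟨j, rfl⟩
      obtain ⟨u, hu, v, hv, huv⟩ := hdec j
      have h9 : u ∈ V := by
        have h10 : u = z j - v := by rw [huv]; ring
        rw [h10]
        exact sub_mem (Submodule.subset_span ⟨j, rfl⟩) (hV₁V hv)
      rw [huv]
      exact add_mem (Submodule.mem_sup_left ⟨h9, hu⟩) (Submodule.mem_sup_right hv)
    have h9 := (Submodule.finrank_mono h8).trans (Submodule.finrank_add_le_finrank_add_finrank _ _)
    rwa [hdV] at h9
  have g8 : δ + finrank ℚ V₀ ≤ a + b := by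
    obtain ⟨V₂, hV₂V, -, hV₂c, hV₂s⟩ := exists_rel_complk lV₀
    have hV₂f : FiniteDimensional ℚ V₂ := Submodule.finiteDimensional_of_le hV₂V
    have h8 := Tan_le_compl (K := K) (z := z) hV₂f (fun j => by
      obtain ⟨u, hu, v, hv, huv⟩ := Submodule.mem_sup.1 (hV₂s (Submodule.subset_span ⟨j, rfl⟩))
      exact ⟨u, hu.2, v, hv, huv.symm⟩)
    omega
  refine ⟨finrank ℚ U₀, finrank ℚ Y₀, ρ₀ + finrank ℚ W, κ₀, x', y', ha', hb', by omega, by omega, by omega,
    hx', hy', ?_, h4, hκ₀.le⟩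
  rw [hsx', hsy']
  exact fun u h1 h2 => hUY u h1 h2.1

end Pool.Agent.H445
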