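import Pool.Agent.H445.GT.B
import Pool.Agent.H445.EllE

/-!
# Exponents and logarithms: the dimension
-/

set_option autoImplicit false

open Set Module MeasureTheory MvPolynomial
open Pool.Agent.TH813.Rel (DF MK subset_cl rk_le_of_subset_cl cl_of_base exists_derF mem_cl)
open Pool.Agent.Y685
open Pool.Agent.Y776 (Tf lg lgL Tf_lin lg_lin ET ET_finite)
open scoped NNReal ENNReal

noncomputable section

namespace Pool.Agent.H445

variable {C : IntermediateField ℚ ℂ} {a b r k : ℕ} {x : Fin a → ℂ} {y : Fin b → ℂ}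

theorem GT.mono {r' k' : ℕ} (h : GT C a b r k x y) (hr : r ≤ r') (hk : k ≤ k') : GT C a b r' k' x y :=
  ⟨h.lx, h.ly, h.dj, h.ty.trans (by exact_mod_cast hr), h.rk.trans (by exact_mod_cast hk)⟩

/-- a linearly independent tuple is not contained in a small space -/
theorem exists_log_notMem (V : Submodule ℚ ℂ) [FiniteDimensional ℚ V] :
    ∃ l : ℂ, IsAlgebraic ℚ (Complex.exp l) ∧ l ∉ V := by
  obtain ⟨c, hc, hal⟩ := exists_logs (finrank ℚ V + 1)
  by_contra hcon
  push Not at hcon
  have h1 : ∀ i, (c i : ℂ) ∈ V := fun i => hcon _ (hal i)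
  have h2 : LinearIndependent ℚ (fun i => (⟨(c i : ℂ), h1 i⟩ : V)) :=
    LinearIndependent.of_comp V.subtype hc
  have h3 := h2.fintype_card_le_finrank
  rw [Fintype.card_fin] at h3
  omega

theorem range_snoc' {n : ℕ} (x : Fin n → ℂ) (u : ℂ) : range (Fin.snoc x u : Fin (n + 1) → ℂ) = range x ∪ {u} := by
  ext v
  constructor
  · rintro ⟨i, rfl⟩
    refine Fin.lastCases ?_ (fun i => ?_) i
    · rw [Fin.snoc_last]
      exact Or.inr rfl
    · rw [Fin.snoc_castSucc]
      exact Or.inl ⟨i, rfl⟩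
  · rintro (⟨i, rfl⟩ | rfl)
    · exact ⟨i.castSucc, by rw [Fin.snoc_castSucc]⟩
    · exact ⟨Fin.last n, by rw [Fin.snoc_last]⟩

/-- the spans stay disjoint -/
theorem dj_snoc {X Y : Submodule ℚ ℂ} (hd : ∀ u ∈ X, u ∈ Y → u = 0) {p : ℂ} (hp : p ∉ X ⊔ Y) :
    ∀ u ∈ X ⊔ Submodule.span ℚ {p}, u ∈ Y → u = 0 := by
  intro u hu huY
  obtain ⟨v, hv, w, hw, rfl⟩ := Submodule.mem_sup.1 hu
  obtain ⟨q, rfl⟩ := Submodule.mem_span_singleton.1 hw
  have h1 : q = 0 := by
    by_contra hq
    apply hp
    have h2 : p = q⁻¹ • ((v + q • p) - v) := by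
      rw [add_sub_cancel_left, smul_smul, inv_mul_cancel₀ hq, one_smul]
    rw [h2]
    exact Submodule.smul_mem _ _ (sub_mem (Submodule.mem_sup_right huY) (Submodule.mem_sup_left hv))
  rw [h1, zero_smul, add_zero] at huY ⊢
  exact hd v hv huY

theorem ET_snoc {n : ℕ} (x : Fin n → ℂ) (u : ℂ) :
    ET (Fin.snoc x u : Fin (n + 1) → ℂ) = ET x ∪ {u, Complex.exp u} := by
  ext v
  constructor
  · rintro (⟨i, rfl⟩ | ⟨i, rfl⟩)
    · refine Fin.lastCases ?_ (fun i => ?_) i
      · rw [Fin.snoc_last]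
        exact Or.inr (Or.inl rfl)
      · rw [Fin.snoc_castSucc]
        exact Or.inl (Or.inl ⟨i, rfl⟩)
    · beta_reduce
      refine Fin.lastCases ?_ (fun i => ?_) i
      · rw [Fin.snoc_last]
        exact Or.inr (Or.inr rfl)
      · rw [Fin.snoc_castSucc]
        exact Or.inl (Or.inr ⟨i, rfl⟩)
  · rintro ((⟨i, rfl⟩ | ⟨i, rfl⟩) | rfl | rfl)
    · exact Or.inl ⟨i.castSucc, by rw [Fin.snoc_castSucc]⟩
    · exact Or.inr ⟨i.castSucc, by beta_reduce; rw [Fin.snoc_castSucc]⟩
    · exact Or.inl ⟨Fin.last n, by rw [Fin.snoc_last]⟩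
    · exact Or.inr ⟨Fin.last n, by beta_reduce; rw [Fin.snoc_last]⟩

/-- adding an algebraic exponent -/
theorem GT.succX (h : GT C a b r k x y) : ∃ x' : Fin (a + 1) → ℂ, GT C (a + 1) b r (k + 1) x' y := by
  have hXf : FiniteDimensional ℚ (Submodule.span ℚ (range x)) := FiniteDimensional.span_of_finite ℚ (finite_range x)
  have hYf : FiniteDimensional ℚ (Submodule.span ℚ (range y)) := FiniteDimensional.span_of_finite ℚ (finite_range y)
  obtain ⟨p, hp1, hp2⟩ := exists_real_alg (Submodule.span ℚ (range x) ⊔ Submodule.span ℚ (range y))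
  refine ⟨Fin.snoc x (p : ℂ), ?_, h.ly, ?_, ?_, ?_⟩
  · exact LinearIndependent.finSnoc h.lx fun hp => hp2 (Submodule.mem_sup_left hp)
  · rw [range_snoc', Submodule.span_union]
    exact dj_snoc h.dj hp2
  · refine (rk_le_of_subset_cl ?_).trans h.ty
    rw [range_snoc']
    rintro u ((hu | rfl) | hu)
    · exact subset_cl _ (Or.inl hu)
    · exact alg_mem_clF hp1 _
    · exact subset_cl _ (Or.inr hu)
  · have h1 : ET (Fin.snoc x (p : ℂ) : Fin (a + 1) → ℂ) ∪ ET y ⊆
        (MK C).closure (insert (Complex.exp p) (ET x ∪ ET y)) := by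
      rw [ET_snoc]
      rintro u ((hu | rfl | rfl) | hu)
      · exact subset_cl _ (Or.inr (Or.inl hu))
      · exact alg_mem_clF hp1 _
      · exact subset_cl _ (Or.inl rfl)
      · exact subset_cl _ (Or.inr (Or.inr hu))
    refine (rk_le_of_subset_cl h1).trans (((MK C).eRk_insert_le_add_one _ _).trans ?_)
    rw [Nat.cast_add, Nat.cast_one]
    exact add_le_add h.rk le_rfl

/-- adding a logarithm of an algebraic number -/
theorem GT.succY (h : GT C a b r k x y) : ∃ y' : Fin (b + 1) → ℂ, GT C a (b + 1) r (k + 1) x y' := by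
  have hXf : FiniteDimensional ℚ (Submodule.span ℚ (range x)) := FiniteDimensional.span_of_finite ℚ (finite_range x)
  have hYf : FiniteDimensional ℚ (Submodule.span ℚ (range y)) := FiniteDimensional.span_of_finite ℚ (finite_range y)
  obtain ⟨p, hp1, hp2⟩ := exists_log_notMem (Submodule.span ℚ (range x) ⊔ Submodule.span ℚ (range y))
  refine ⟨Fin.snoc y p, h.lx, ?_, ?_, ?_, ?_⟩
  · exact LinearIndependent.finSnoc h.ly fun hp => hp2 (Submodule.mem_sup_right hp)
  · rw [range_snoc', Submodule.span_union]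
    have h1 := dj_snoc (X := Submodule.span ℚ (range y)) (Y := Submodule.span ℚ (range x))
      (fun u h1 h2 => h.dj u h2 h1) (p := p) (by rwa [sup_comm])
    exact fun u h2 h3 => h1 u h3 h2
  · refine (rk_le_of_subset_cl ?_).trans h.ty
    rintro u (hu | ⟨i, rfl⟩)
    · exact subset_cl _ (Or.inl hu)
    · beta_reduce
      refine Fin.lastCases ?_ (fun i => ?_) i
      · rw [Fin.snoc_last]
        exact alg_mem_clF hp1 _
      · rw [Fin.snoc_castSucc]
        exact subset_cl _ (Or.inr ⟨i, rfl⟩)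
  · have h1 : ET x ∪ ET (Fin.snoc y p : Fin (b + 1) → ℂ) ⊆
        (MK C).closure (insert p (ET x ∪ ET y)) := by
      rw [ET_snoc]
      rintro u (hu | hu | rfl | rfl)
      · exact subset_cl _ (Or.inr (Or.inl hu))
      · exact subset_cl _ (Or.inr (Or.inr hu))
      · exact subset_cl _ (Or.inl rfl)
      · exact alg_mem_clF hp1 _
    refine (rk_le_of_subset_cl h1).trans (((MK C).eRk_insert_le_add_one _ _).trans ?_)
    rw [Nat.cast_add, Nat.cast_one]
    exact add_le_add h.rk le_rfl

theorem GT.extend {a' b' : ℕ} (ha : a ≤ a') (hb : b ≤ b')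
    (h : ∃ (x : Fin a → ℂ) (y : Fin b → ℂ), GT C a b r k x y) :
    ∃ (x : Fin a' → ℂ) (y : Fin b' → ℂ), GT C a' b' r (k + (a' - a) + (b' - b)) x y := by
  have h1 : ∃ (x : Fin a' → ℂ) (y : Fin b → ℂ), GT C a' b r (k + (a' - a)) x y := by
    induction a', ha using Nat.le_induction with
    | base =>
      rw [Nat.sub_self, add_zero]
      exact h
    | succ c hc ih =>
      obtain ⟨x, y, hx⟩ := ih
      obtain ⟨x', hx'⟩ := hx.succX
      exact ⟨x', y, hx'.mono le_rfl (by omega)⟩
  clear h
  induction b', hb using Nat.le_induction with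
  | base =>
    rw [Nat.sub_self, add_zero]
    exact h1
  | succ c hc ih =>
    obtain ⟨x, y, hx⟩ := ih
    obtain ⟨y', hy'⟩ := hx.succY
    exact ⟨x, y', hy'.mono le_rfl (by omega)⟩

/-- the set of the points -/
def VG (C : IntermediateField ℚ ℂ) (a b r k : ℕ) : Set (Fin (a + b) → ℂ) :=
  {w | GT C a b r k (fun i => w (Fin.castAdd b i)) (fun i => w (Fin.natAdd a i))}

theorem append_mem_VG {x : Fin a → ℂ} {y : Fin b → ℂ} : Fin.append x y ∈ VG C a b r k ↔ GT C a b r k x y := by
  unfold VG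
  rw [mem_ofPred_eq]
  simp only [Fin.append_left, Fin.append_right]

theorem VG_nonempty : (VG C a b r k).Nonempty ↔ ∃ (x : Fin a → ℂ) (y : Fin b → ℂ), GT C a b r k x y := by
  constructor
  · rintro ⟨w, hw⟩
    exact ⟨_, _, hw⟩
  · rintro ⟨x, y, h⟩
    exact ⟨_, append_mem_VG.2 h⟩

/-- the admissible levels -/
def LevG (C : IntermediateField ℚ ℂ) (a b r k : ℕ) : Set ℕ :=
  {d | d ≤ r ∧ 2 * d ≤ k ∧ ∃ i j, i ≤ a ∧ j ≤ b ∧ i + j = d ∧ (VG C (a - i) (b - j) (r - d) (k - 2 * d)).Nonempty}

theorem LevG_bdd : BddAbove (LevG C a b r k) := ⟨r, fun _ h => h.1⟩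

theorem LevG_down {d e : ℕ} (hed : e ≤ d) (hd : d ∈ LevG C a b r k) : e ∈ LevG C a b r k := by
  obtain ⟨h1, h2, i, j, h3, h4, h5, h6⟩ := hd
  refine ⟨by omega, by omega, min i e, e - min i e, by omega, by omega, by omega, ?_⟩
  rw [VG_nonempty] at h6 ⊢
  obtain ⟨x, y, hx⟩ := GT.extend (a' := a - min i e) (b' := b - (e - min i e)) (by omega) (by omega) h6
  exact ⟨x, y, hx.mono (by omega) (by omega)⟩

/-- the level of a point -/
theorem GT.level (h : GT C a b r k x y) {K : Subfield ℂ} (hK : ClE K) {L : PeriodPair} (hL2 : L.g₂ ∈ K)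
    (hL3 : L.g₃ ∈ K) (hC : C ≤ IFd K) :
    finrank ℂ (Tan PE K (PhE (Fin.append x y))) ∈ LevG C a b r k ∧
    (finrank ℂ (Tan PE K (PhE (Fin.append x y))) = 0 → ∀ j, Fin.append x y j ∈ K) := by
  obtain ⟨⟨a', b', r', k', x', y', h1, h2, h3, h4, h5, h6⟩, h7⟩ := h.reduce hK hL2 hL3 hC
  refine ⟨?_, h7⟩
  set δ := finrank ℂ (Tan PE K (PhE (Fin.append x y))) with hδ
  refine ⟨by omega, by omega, min δ (a - a'), δ - min δ (a - a'), by omega, by omega, by omega, ?_⟩
  obtain ⟨x'', y'', h8⟩ := GT.extend (a' := a - min δ (a - a')) (b' := b - (δ - min δ (a - a')))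
    (by omega) (by omega) ⟨x', y', h6⟩
  exact VG_nonempty.2 ⟨x'', y'', h8.mono (by omega) (by omega)⟩

/-- adding free numbers -/
theorem GT.generic {i j : ℕ} (h : GT C a b r k x y) {w : Fin (i + j) → ℂ}
    (hli : LinearIndependent ℚ (Fin.append (Fin.append x y) w)) :
    GT C (a + i) (b + j) (r + (i + j)) (k + 2 * (i + j)) (Fin.append x fun l => w (Fin.castAdd j l))
      (Fin.append y fun l => w (Fin.natAdd i l)) := by
  set u : Fin i → ℂ := fun l => w (Fin.castAdd j l) with hu
  set v : Fin j → ℂ := fun l => w (Fin.natAdd i l) with hv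
  let σ₁ : Fin (a + i) → Fin ((a + b) + (i + j)) := Fin.addCases
    (fun l => Fin.castAdd _ (Fin.castAdd b l)) (fun l => Fin.natAdd _ (Fin.castAdd j l))
  let σ₂ : Fin (b + j) → Fin ((a + b) + (i + j)) := Fin.addCases
    (fun l => Fin.castAdd _ (Fin.natAdd a l)) (fun l => Fin.natAdd _ (Fin.natAdd i l))
  have e₁ : Fin.append x u = Fin.append (Fin.append x y) w ∘ σ₁ := by
    funext l
    refine Fin.addCases (fun l => ?_) (fun l => ?_) l
    · simp only [σ₁, Function.comp_apply, Fin.addCases_left, Fin.append_left]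
    · simp only [σ₁, Function.comp_apply, Fin.addCases_right, Fin.append_right, hu]
  have e₂ : Fin.append y v = Fin.append (Fin.append x y) w ∘ σ₂ := by
    funext l
    refine Fin.addCases (fun l => ?_) (fun l => ?_) l
    · simp only [σ₂, Function.comp_apply, Fin.addCases_left, Fin.append_left, Fin.append_right]
    · simp only [σ₂, Function.comp_apply, Fin.addCases_right, Fin.append_right, hv]
  have i₁ : Function.Injective σ₁ := by
    intro p q
    refine Fin.addCases (fun p => ?_) (fun p => ?_) p <;> refine Fin.addCases (fun q => ?_) (fun q => ?_) q <;>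
      intro hpq <;> simp only [σ₁, Fin.addCases_left, Fin.addCases_right] at hpq <;>
      simp only [Fin.ext_iff, Fin.val_castAdd, Fin.val_natAdd] at hpq ⊢ <;> omega
  have i₂ : Function.Injective σ₂ := by
    intro p q
    refine Fin.addCases (fun p => ?_) (fun p => ?_) p <;> refine Fin.addCases (fun q => ?_) (fun q => ?_) q <;>
      intro hpq <;> simp only [σ₂, Fin.addCases_left, Fin.addCases_right] at hpq <;>
      simp only [Fin.ext_iff, Fin.val_castAdd, Fin.val_natAdd] at hpq ⊢ <;> omega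
  have hdis : Disjoint (range σ₁) (range σ₂) := by
    rw [Set.disjoint_left]
    rintro _ ⟨p, rfl⟩ ⟨q, hq⟩
    revert hq
    refine Fin.addCases (fun p => ?_) (fun p => ?_) p <;> refine Fin.addCases (fun q => ?_) (fun q => ?_) q <;>
      intro hpq <;> simp only [σ₁, σ₂, Fin.addCases_left, Fin.addCases_right] at hpq <;>
      simp only [Fin.ext_iff, Fin.val_castAdd, Fin.val_natAdd] at hpq <;> omega
  refine ⟨?_, ?_, ?_, ?_, ?_⟩
  · rw [e₁]
    exact hli.comp _ i₁
  · rw [e₂]
    exact hli.comp _ i₂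
  · rw [e₁, e₂, range_comp, range_comp]
    intro p hp hq
    have h1 := hli.disjoint_span_image hdis
    exact (Submodule.disjoint_def.1 h1) p hp hq
  · have e3 : range (Fin.append x u) ∪ EX (Fin.append y v) = (range x ∪ EX y) ∪ (range u ∪ EX v) := by
      have e4 : EX (Fin.append y v) = EX y ∪ EX v := by
        ext p
        constructor
        · rintro ⟨l, rfl⟩
          refine Fin.addCases (fun l => ?_) (fun l => ?_) l
          · beta_reduce
            rw [Fin.append_left]
            exact Or.inl ⟨l, rfl⟩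
          · beta_reduce
            rw [Fin.append_right]
            exact Or.inr ⟨l, rfl⟩
        · rintro (⟨l, rfl⟩ | ⟨l, rfl⟩)
          · exact ⟨Fin.castAdd j l, by beta_reduce; rw [Fin.append_left]⟩
          · exact ⟨Fin.natAdd b l, by beta_reduce; rw [Fin.append_right]⟩
      rw [e4, range_app]
      ext p
      simp only [mem_union]
      tauto
    rw [e3]
    refine ((MK (⊥ : IntermediateField ℚ ℂ)).eRk_union_le_eRk_add_encard _ _).trans ?_
    rw [Nat.cast_add]
    refine add_le_add h.ty ?_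
    refine (encard_union_le _ _).trans ?_
    rw [Nat.cast_add]
    refine add_le_add ?_ ?_
    · rw [← image_univ]
      refine (encard_image_le _ _).trans ?_
      rw [encard_univ]
      simp
    · unfold EX
      rw [← image_univ]
      refine (encard_image_le _ _).trans ?_
      rw [encard_univ]
      simp
  · have e3 : ET (Fin.append x u) ∪ ET (Fin.append y v) = (ET x ∪ ET y) ∪ ET w := by
      have e5 : ET w = ET u ∪ ET v := by
        rw [← ET_append, hu, hv]
        congr 1
        exact (append_eta w).symm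
      rw [ET_append, ET_append, e5]
      ext p
      simp only [mem_union]
      tauto
    rw [e3]
    refine ((MK C).eRk_union_le_eRk_add_encard _ _).trans ?_
    rw [Nat.cast_add]
    refine add_le_add h.rk ?_
    refine (encard_union_le _ _).trans ?_
    rw [two_mul, Nat.cast_add]
    refine add_le_add ?_ ?_
    · rw [← image_univ]
      refine (encard_image_le _ _).trans ?_
      rw [encard_univ]
      simp
    · rw [← image_univ]
      refine (encard_image_le _ _).trans ?_
      rw [encard_univ]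
      simp

theorem GT.li (h : GT C a b r k x y) : LinearIndependent ℚ (Fin.append x y) := by
  rw [Fintype.linearIndependent_iff]
  intro g hg
  rw [Fin.sum_univ_add] at hg
  simp only [Fin.append_left, Fin.append_right] at hg
  have h1 : ∑ i, g (Fin.castAdd b i) • x i ∈ Submodule.span ℚ (range x) :=
    sum_mem fun i _ => Submodule.smul_mem _ _ (Submodule.subset_span ⟨i, rfl⟩)
  have h2 : ∑ i, g (Fin.natAdd a i) • y i ∈ Submodule.span ℚ (range y) :=
    sum_mem fun i _ => Submodule.smul_mem _ _ (Submodule.subset_span ⟨i, rfl⟩)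
  have h3 : ∑ i, g (Fin.castAdd b i) • x i = 0 := by
    apply h.dj _ h1
    rw [eq_neg_of_add_eq_zero_left hg]
    exact neg_mem h2
  rw [h3, zero_add] at hg
  intro i
  refine Fin.addCases (fun i => ?_) (fun i => ?_) i
  · exact (Fintype.linearIndependent_iff.1 h.lx) (fun i => g (Fin.castAdd b i)) h3 i
  · exact (Fintype.linearIndependent_iff.1 h.ly) (fun i => g (Fin.natAdd a i)) hg i

/-- **The lower bound** -/
theorem lowerG {d : ℕ} (hd : d ∈ LevG C a b r k) :
    0 < μH[((2 * d : ℕ) : ℝ)] (VG C a b r k) := by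
  obtain ⟨h1, h2, i, j, h3, h4, rfl, h6⟩ := hd
  obtain ⟨a', rfl⟩ : ∃ a', a = a' + i := ⟨a - i, by omega⟩
  obtain ⟨b', rfl⟩ : ∃ b', b = b' + j := ⟨b - j, by omega⟩
  rw [Nat.add_sub_cancel, Nat.add_sub_cancel] at h6
  obtain ⟨x, y, h⟩ := VG_nonempty.1 h6
  have h7 := hm_append (d := i + j) h.li
  let σ : Fin (i + j) → Fin ((a' + i) + (b' + j)) := Fin.addCases
    (fun l => Fin.castAdd _ (Fin.natAdd a' l)) (fun l => Fin.natAdd _ (Fin.natAdd b' l))
  refine hm_proj' σ ?_ h7
  intro w hw
  refine ⟨Fin.append (Fin.append x fun l => w (Fin.castAdd j l)) (Fin.append y fun l => w (Fin.natAdd i l)),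
    append_mem_VG.2 ((GT.generic h hw).mono (by omega) (by omega)), ?_⟩
  intro l
  refine Fin.addCases (fun l => ?_) (fun l => ?_) l
  · simp only [σ, Fin.addCases_left, Fin.append_left, Fin.append_right]
  · simp only [σ, Fin.addCases_right, Fin.append_right]

end Pool.Agent.H445
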