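import Pool.Agent.H445.GT.C
import Pool.Agent.H445.MT.ModE

/-!
# Exponents and logarithms: the dimension formula
-/

set_option autoImplicit false

open Set Module MeasureTheory MvPolynomial
open Pool.Agent.TH813.Rel (DF MK subset_cl rk_le_of_subset_cl cl_of_base exists_derF mem_cl)
open Pool.Agent.Y685
open Pool.Agent.Y776 (Tf lg lgL Tf_lin lg_lin ET ET_finite)
open scoped NNReal ENNReal

noncomputable section

namespace Pool.Agent.H445

variable {C : IntermediateField ℚ ℂ} {a b r k : ℕ} {x : Fin a → ℂ} {y : Fin b → ℂ}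

/-- a closed field -/
theorem exists_fieldG (hC : (C : Set ℂ).Countable) :
    ∃ (K : Subfield ℂ) (L : PeriodPair), ClE K ∧ L.g₂ ∈ K ∧ L.g₃ ∈ K ∧ C ≤ IFd K := by
  classical
  let L : PeriodPair := ⟨1, Complex.I, by
    rw [LinearIndependent.pair_iff]
    intro s t h
    have h1 := congrArg Complex.re h
    have h2 := congrArg Complex.im h
    simp at h1 h2
    exact ⟨h1, h2⟩⟩
  obtain ⟨K, hK, hLK⟩ := exists_ClE (S := {L.g₂, L.g₃} ∪ (C : Set ℂ))
    ((by simp : ({L.g₂, L.g₃} : Set ℂ).Countable).union hC)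
  refine ⟨K, L, hK, hLK (by simp), hLK (by simp), ?_⟩
  intro x hx
  exact hLK (Or.inr hx)

theorem VG_sub {w : Fin (a + b) → ℂ} (hw : w ∈ VG C a b r k) {K : Subfield ℂ} (hK : ClE K) {L : PeriodPair}
    (hL2 : L.g₂ ∈ K) (hL3 : L.g₃ ∈ K) (hC : C ≤ IFd K) :
    finrank ℂ (Tan PE K (PhE w)) ∈ LevG C a b r k ∧ (finrank ℂ (Tan PE K (PhE w)) = 0 → ∀ j, w j ∈ K) := by
  have h1 : w = Fin.append (fun i => w (Fin.castAdd b i)) (fun i => w (Fin.natAdd a i)) := (append_eta w).symm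
  rw [h1]
  exact GT.level (append_mem_VG.1 (h1 ▸ hw)) hK hL2 hL3 hC

/-- **The dimension formula** -/
theorem dimG (hC : (C : Set ℂ).Countable) :
    dimH (VG C a b r k) = ((2 * sSup (LevG C a b r k) : ℕ) : ℝ≥0∞) ∧
    SigF (2 * sSup (LevG C a b r k)) (VG C a b r k) := by
  obtain ⟨K, L, hK, hL2, hL3, hCK⟩ := exists_fieldG hC
  have h0 : VG C a b r k ⊆ {z | z ∈ (univ : Set (Fin (a + b) → ℂ)) ∧
      finrank ℂ (Tan PE K (PhE z)) ≤ sSup (LevG C a b r k)} := fun w hw =>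
    ⟨mem_univ _, le_csSup LevG_bdd (VG_sub hw hK hL2 hL3 hCK).1⟩
  refine ⟨le_antisymm ((dimH_mono h0).trans (dimH_Tan (P := PE) (K := K) (Φ := PhE) hK.cnt isOpen_univ
      (fun x _ s => PhE_der x s) _).1) ?_,
    SigF.mono h0 (SigF_Tan (P := PE) (K := K) (Φ := PhE) hK.cnt isOpen_univ
      (fun x _ s => PhE_der x s) _).1⟩
  rcases (LevG C a b r k).eq_empty_or_nonempty with h | h
  · rw [h, csSup_empty]
    simp
  · have h1 := lowerG (Nat.sSup_mem h LevG_bdd)
    exact le_dimH_of_hausdorffMeasure_ne_zero (d := ((2 * sSup (LevG C a b r k) : ℕ) : NNReal))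
      (by simpa using h1.ne')

theorem posG (h : (VG C a b r k).Nonempty) :
    0 < μH[((2 * sSup (LevG C a b r k) : ℕ) : ℝ)] (VG C a b r k) :=
  lowerG (Nat.sSup_mem ⟨0, by omega, by omega, 0, 0, by omega, by omega, rfl, by simpa using h⟩ LevG_bdd)

theorem countableG (hC : (C : Set ℂ).Countable) :
    (VG C a b r k).Countable ↔ 1 ∉ LevG C a b r k := by
  constructor
  · intro h h1
    have h2 := lowerG h1
    have h3 : dimH (VG C a b r k) = 0 := h.dimH_zero
    have h4 : (((2 * 1 : ℕ) : NNReal) : ℝ≥0∞) ≤ dimH (VG C a b r k) :=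
      le_dimH_of_hausdorffMeasure_ne_zero (by simpa using h2.ne')
    rw [h3] at h4
    simp at h4
  · intro h
    obtain ⟨K, L, hK, hL2, hL3, hCK⟩ := exists_fieldG hC
    have h1 : VG C a b r k ⊆ {w | ∀ j, w j ∈ (K : Set ℂ)} := by
      intro w hw
      obtain ⟨h2, h3⟩ := VG_sub hw hK hL2 hL3 hCK
      apply h3
      by_contra h4
      exact h (LevG_down (Nat.one_le_iff_ne_zero.2 h4) h2)
    refine Set.Countable.mono h1 ?_
    have h2 : {w : Fin (a + b) → ℂ | ∀ j, w j ∈ (K : Set ℂ)} = Set.pi univ fun _ => (K : Set ℂ) := by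
      ext w
      simp
    rw [h2]
    exact Set.countable_univ_pi fun _ => hK.cnt

end Pool.Agent.H445
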