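import Pool.Agent.H445.GT.D
import Pool.Graph.R_seed8.H327R2.SC.ExpLat

/-!
# Exponents and logarithms: the conjecture of Gel'fond
-/

set_option autoImplicit false

open Set Module MeasureTheory MvPolynomial
open Pool.Agent.TH813.Rel (DF MK subset_cl rk_le_of_subset_cl cl_of_base exists_derF mem_cl)
open Pool.Agent.Y685
open Pool.Agent.Y776 (Tf lg lgL Tf_lin lg_lin ET ET_finite)
open scoped NNReal ENNReal

noncomputable section

namespace Pool.Agent.H445

variable {C : IntermediateField ℚ ℂ} {a b r k c : ℕ} {x : Fin a → ℂ} {y : Fin b → ℂ}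

/-- Gel'fond's statement over `C` with error `c` -/
def GE (C : IntermediateField ℚ ℂ) (c a b : ℕ) : Prop :=
  ∀ (α : Fin a → ℂ) (l : Fin b → ℂ), (∀ i, IsAlgebraic ℚ (α i)) → LinearIndependent ℚ α →
    (∀ j, IsAlgebraic ℚ (Complex.exp (l j))) → LinearIndependent ℚ l →
    ((a + b : ℕ) : ℕ∞) ≤ (MK C).eRk (EX α ∪ range l) + c

/-- independence and rank -/
theorem algInd_iff (F : Type) [Field F] [Algebra F ℂ] {ι : Type} [Fintype ι] (v : ι → ℂ) :
    AlgebraicIndependent F v ↔ ((Fintype.card ι : ℕ) : ℕ∞) ≤ (MK F).eRk (range v) := by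
  constructor
  · intro h
    have h1 : (MK F).Indep (range v) := by
      rw [AlgebraicIndependent.matroid_indep_iff]
      exact h.coe_range
    rw [h1.eRk_eq_encard, ← image_univ, h.injective.encard_image, encard_univ, ENat.card_eq_coe_fintype_card]
  · intro h
    have h2 : (range v).encard ≤ ((Fintype.card ι : ℕ) : ℕ∞) := by
      rw [← image_univ]
      refine (encard_image_le _ _).trans ?_
      rw [encard_univ, ENat.card_eq_coe_fintype_card]
    have h3 : (MK F).eRk (range v) ≤ (range v).encard := (MK F).eRk_le_encard _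
    have h4 : (range v).encard = ((Fintype.card ι : ℕ) : ℕ∞) := le_antisymm h2 (h.trans h3)
    have h5 : (MK F).eRk (range v) = (range v).encard := le_antisymm h3 (h4 ▸ h)
    have h6 : (MK F).Indep (range v) :=
      (Matroid.indep_iff_eRk_eq_encard_of_finite (finite_range v)).2 h5
    have h7 : Function.Injective v := by
      have h8 : (range v).ncard = Fintype.card ι := by
        rw [Set.ncard, h4]
        rfl
      have h9 : (univ : Set ι).ncard ≤ (v '' univ).ncard := by
        rw [image_univ, h8, ncard_univ, Nat.card_eq_fintype_card]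
      have h10 := (Set.ncard_image_iff (s := (univ : Set ι)) (f := v)).1
        (le_antisymm (Set.ncard_image_le) h9)
      exact injOn_univ.1 h10
    rw [AlgebraicIndependent.matroid_indep_iff] at h6
    exact (algebraicIndependent_subtype_range h7).1 h6

/-- algebraic numbers from the rank -/
theorem rk_zero_iff {S : Set ℂ} :
    (MK (⊥ : IntermediateField ℚ ℂ)).eRk S ≤ ((0 : ℕ) : ℕ∞) ↔ ∀ s ∈ S, IsAlgebraic ℚ s := by
  rw [Nat.cast_zero, nonpos_iff_eq_zero, Matroid.eRk_eq_zero_iff (by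
    intro x _
    exact mem_univ x)]
  constructor
  · intro h s hs
    exact alg_of_cl_empty alg_bot (h hs)
  · intro h s hs
    have h1 := alg_mem_cl (h s hs) ∅
    rwa [Matroid.closure_empty] at h1

/-- the theorem of Hermite and Lindemann -/
theorem lindemann {u : ℂ} (h1 : IsAlgebraic ℚ u) (h2 : IsAlgebraic ℚ (Complex.exp u)) : u = 0 := by
  by_contra h0
  have h3 := Pool.Agent.H327R2.SC.lw_algInd (ι := Fin 1) (fun _ => u) (fun _ => h1)
    (LinearIndependent.of_subsingleton 0 h0)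
  have h4 := h3.transcendental 0
  exact h4 h2

theorem exp_span_alg {n : ℕ} {y : Fin n → ℂ} (hS : ∀ j, IsAlgebraic ℚ (Complex.exp (y j))) {v : ℂ}
    (hv : v ∈ Submodule.span ℚ (range y)) : IsAlgebraic ℚ (Complex.exp v) := by
  have h1 : Complex.exp v ∈ (MK (⊥ : IntermediateField ℚ ℂ)).closure (∅ : Set ℂ) := by
    rw [← mem_clo_iff]
    intro D hD _
    refine der_exp_span (y := y) (fun j => ?_) hv
    have h2 := alg_mem_cl (hS j) ∅
    exact (mem_clo_iff.2 h2) D hD (by simp)
  exact alg_of_cl_empty alg_bot h1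

theorem span_alg {n : ℕ} {x : Fin n → ℂ} (hS : ∀ j, IsAlgebraic ℚ (x j)) {v : ℂ}
    (hv : v ∈ Submodule.span ℚ (range x)) : IsAlgebraic ℚ v := by
  induction hv using Submodule.span_induction with
  | mem x hx =>
    obtain ⟨i, rfl⟩ := hx
    exact hS i
  | zero => exact isAlgebraic_zero
  | add x y _ _ hx hy => exact hx.add hy
  | smul c x _ hx =>
    rw [Rat.smul_def]
    exact (isAlgebraic_algebraMap c).mul hx

/-- **The link** -/
theorem GE_iff (hk : k + c + 1 = a + b) : GE C c a b ↔ ¬ (VG C a b 0 k).Nonempty := by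
  rw [VG_nonempty]
  constructor
  · rintro h ⟨x, y, hxy⟩
    have h1 := rk_zero_iff.1 hxy.ty
    have h2 := h x y (fun i => h1 _ (Or.inl ⟨i, rfl⟩)) hxy.lx (fun j => h1 _ (Or.inr ⟨j, rfl⟩)) hxy.ly
    have h3 : (MK C).eRk (EX x ∪ range y) ≤ (k : ℕ∞) := by
      refine le_trans ((MK _).eRk_mono ?_) hxy.rk
      rintro u (hu | hu)
      · exact Or.inl (Or.inr hu)
      · exact Or.inr (Or.inl hu)
    have h4 : ((a + b : ℕ) : ℕ∞) ≤ ((k + c : ℕ) : ℕ∞) := by
      rw [Nat.cast_add k c]
      exact h2.trans (add_le_add h3 le_rfl)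
    have h5 : a + b ≤ k + c := by exact_mod_cast h4
    omega
  · intro h α l h1 h2 h3 h4
    by_contra hcon
    rw [not_le] at hcon
    apply h
    have hf : (EX α ∪ range l).Finite := (EX_finite α).union (finite_range l)
    obtain ⟨ρ, hρ⟩ : ∃ ρ : ℕ, (MK C).eRk (EX α ∪ range l) = ρ := by
      have : (MK C).eRk (EX α ∪ range l) ≠ ⊤ := by
        rw [← lt_top_iff_ne_top]
        exact lt_of_le_of_lt ((MK _).eRk_le_encard _) hf.encard_lt_top
      exact ⟨_, (ENat.natCast_toNat this).symm⟩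
    rw [hρ] at hcon
    have h5 : ρ + c < a + b := by exact_mod_cast hcon
    refine ⟨α, l, h2, h4, ?_, ?_, ?_⟩
    · intro u hu hu'
      exact lindemann (span_alg h1 hu) (exp_span_alg h3 hu')
    · rw [rk_zero_iff]
      rintro s (⟨i, rfl⟩ | ⟨j, rfl⟩)
      · exact h1 i
      · exact h3 j
    · refine (rk_le_of_subset_cl (T := EX α ∪ range l) ?_).trans ?_
      · rintro s ((⟨i, rfl⟩ | ⟨i, rfl⟩) | (⟨i, rfl⟩ | ⟨i, rfl⟩))
        · exact alg_mem_clF (h1 i) _
        · exact subset_cl _ (Or.inl ⟨i, rfl⟩)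
        · exact subset_cl _ (Or.inr ⟨i, rfl⟩)
        · exact alg_mem_clF (h3 i) _
      · rw [hρ]
        exact_mod_cast (by omega : ρ ≤ k)

theorem GE_triv (h : a + b ≤ c) : GE C c a b := fun _ _ _ _ _ _ =>
  le_trans (by exact_mod_cast h) le_add_self

/-- the algebraic independence -/
theorem elim_iff (F : Type) [Field F] [Algebra F ℂ] {α : Fin a → ℂ} {l : Fin b → ℂ} :
    AlgebraicIndependent F (Sum.elim (fun i => Complex.exp (α i)) l) ↔
      ((a + b : ℕ) : ℕ∞) ≤ (MK (FR F)).eRk (EX α ∪ range l) := by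
  rw [algInd_iff, Set.Sum.elim_range, Fintype.card_sum, Fintype.card_fin, Fintype.card_fin, MK_FR]

/-- the theorem of Lindemann and Weierstrass -/
theorem rank_lw {α : Fin a → ℂ} (h1 : ∀ i, IsAlgebraic ℚ (α i)) (h2 : LinearIndependent ℚ α) :
    ((a : ℕ) : ℕ∞) ≤ (MK (⊥ : IntermediateField ℚ ℂ)).eRk (EX α) := by
  have h3 := (algInd_iff ℚ _).1 (Pool.Agent.H327R2.SC.lw_algInd α h1 h2)
  rw [Fintype.card_fin] at h3
  rw [← MJ.FR_bot, Pool.Agent.Y685.MK_FR ℚ]
  exact h3

theorem GE_lw (a b : ℕ) : GE (⊥ : IntermediateField ℚ ℂ) b a b := by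
  intro α l h1 h2 _ _
  rw [Nat.cast_add]
  refine add_le_add ((rank_lw h1 h2).trans ((MK _).eRk_mono ?_)) le_rfl
  exact subset_union_left

/-- one logarithm -/
theorem GE_one : GE (⊥ : IntermediateField ℚ ℂ) 0 0 1 := by
  intro α l _ _ h3 h4
  rw [Nat.cast_zero, add_zero, zero_add, Nat.cast_one, Order.one_le_iff_ne_zero]
  intro h0
  have h5 := rk_zero_iff.1 h0.le (l 0) (Or.inr ⟨0, rfl⟩)
  exact h4.ne_zero 0 (lindemann h5 (h3 0))

theorem exists_GT (C : IntermediateField ℚ ℂ) (a b : ℕ) : (VG C a b 0 (a + b)).Nonempty := by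
  rw [VG_nonempty]
  have h : ∃ (x : Fin 0 → ℂ) (y : Fin 0 → ℂ), GT C 0 0 0 0 x y := by
    refine ⟨Fin.elim0, Fin.elim0, linearIndependent_empty_type, linearIndependent_empty_type, ?_, ?_, ?_⟩
    · intro u hu _
      rw [range_eq_empty, Submodule.span_empty] at hu
      exact hu
    · rw [rk_zero_iff]
      rintro s (⟨i, -⟩ | ⟨i, -⟩)
      · exact i.elim0
      · exact i.elim0
    · refine (rk_le_of_subset_cl (T := ∅) ?_).trans (by simp)
      rintro s ((⟨i, -⟩ | ⟨i, -⟩) | (⟨i, -⟩ | ⟨i, -⟩)) <;> exact i.elim0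
  obtain ⟨x, y, h1⟩ := GT.extend (a' := a) (b' := b) (Nat.zero_le _) (Nat.zero_le _) h
  exact ⟨x, y, h1.mono le_rfl (by omega)⟩

/-- fewer numbers -/
theorem GE.down {a' b' : ℕ} (ha : a ≤ a') (hb : b ≤ b') (h : GE C c a' b') : GE C c a b := by
  rcases le_or_gt (a + b) c with h1 | h1
  · exact GE_triv h1
  · rw [GE_iff (k := a' + b' - c - 1) (by omega)] at h
    rw [GE_iff (k := a + b - c - 1) (by omega)]
    intro h2
    apply h
    rw [VG_nonempty] at h2 ⊢
    obtain ⟨x, y, h3⟩ := GT.extend ha hb h2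
    exact ⟨x, y, h3.mono le_rfl (by omega)⟩

theorem GE.err {c' : ℕ} (hc : c ≤ c') (h : GE C c a b) : GE C c' a b := fun α l h1 h2 h3 h4 =>
  (h α l h1 h2 h3 h4).trans (add_le_add le_rfl (by exact_mod_cast hc))

/-- **The threshold** -/
theorem top_level_iff (hk : k + c + 1 = a + b + r) :
    r ∉ LevG C a b r k ↔ ∀ i j, i ≤ a → j ≤ b → i + j = r → GE C c (a - i) (b - j) := by
  constructor
  · intro h i j hi hj hij
    rcases le_or_gt (2 * r) k with h2 | h2
    · rw [GE_iff (k := k - 2 * r) (by omega)]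
      intro h3
      exact h ⟨le_rfl, h2, i, j, hi, hj, hij, by rwa [Nat.sub_self]⟩
    · exact GE_triv (by omega)
  · rintro h ⟨-, h2, i, j, hi, hj, hij, h3⟩
    have h4 := h i j hi hj hij
    rw [GE_iff (k := k - 2 * r) (by omega)] at h4
    rw [Nat.sub_self] at h3
    exact h4 h3

theorem sSup_lt_iff (hr : 1 ≤ r) :
    sSup (LevG C a b r k) ≤ r - 1 ↔ r ∉ LevG C a b r k := by
  constructor
  · intro h h1
    have := le_csSup LevG_bdd h1
    omega
  · intro h
    rcases (LevG C a b r k).eq_empty_or_nonempty with h0 | h0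
    · rw [h0, csSup_empty]
      exact Nat.zero_le _
    · refine csSup_le h0 fun d hd => ?_
      have h1 : d ≤ r := hd.1
      have h2 : d ≠ r := fun h3 => h (h3 ▸ hd)
      omega

theorem pred_mem (hr : 1 ≤ r) (hab : r ≤ a + b) (hk : k + 1 = a + b + r) : r - 1 ∈ LevG C a b r k := by
  refine ⟨by omega, by omega, min (r - 1) a, r - 1 - min (r - 1) a, by omega, by omega, by omega, ?_⟩
  obtain ⟨w, hw⟩ := exists_GT C (a - min (r - 1) a) (b - (r - 1 - min (r - 1) a))
  exact ⟨w, hw.mono (by omega) (by omega)⟩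

end Pool.Agent.H445
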