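import Pool.Agent.H445.GT.E

/-!
# Exponents and logarithms: passage to transcendence degrees
-/

set_option autoImplicit false

open Set Module MeasureTheory MvPolynomial
open Pool.Agent.TH813.Rel (DF MK subset_cl rk_le_of_subset_cl cl_of_base exists_derF mem_cl)
open Pool.Agent.Y685
open Pool.Agent.Y776 (Tf lg lgL Tf_lin lg_lin ET ET_finite)
open scoped NNReal ENNReal

noncomputable section

namespace Pool.Agent.H445

variable {C : IntermediateField ℚ ℂ} {a b r k c m : ℕ}

theorem countable_cloG {S : Set ℂ} (hS : S.Countable) :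
    ((clo (⊥ : IntermediateField ℚ ℂ) S : IntermediateField ℚ ℂ) : Set ℂ).Countable := by
  obtain ⟨K, hK, hSK⟩ := exists_ClE hS
  exact hK.cnt.mono (hK.clo_le bot_le hSK)

theorem rank_par {P : Fin m → ℂ} (hP : AlgebraicIndependent ℚ P) {S : Set ℂ} (hS : S.Finite) :
    (MK (⊥ : IntermediateField ℚ ℂ)).eRk (range P ∪ S) =
      m + (MK (clo (⊥ : IntermediateField ℚ ℂ) (range P))).eRk S := by
  rw [rank_add (finite_range P) hS]
  congr 1
  apply le_antisymm
  · refine ((MK _).eRk_le_encard _).trans ?_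
    rw [← image_univ]
    refine (encard_image_le _ _).trans ?_
    rw [encard_univ]
    simp
  · have h1 := (algInd_iff ℚ _).1 hP
    rw [Fintype.card_fin] at h1
    rw [← MJ.FR_bot, Pool.Agent.Y685.MK_FR ℚ]
    exact h1

theorem trdeg_le_iff {S : Set ℂ} {N : ℕ} :
    Algebra.trdeg ℚ (IntermediateField.adjoin ℚ S) ≤ (N : Cardinal) ↔
      (MK (⊥ : IntermediateField ℚ ℂ)).eRk S ≤ (N : ℕ∞) := by
  have h := MJ.trdeg_iff (S := S) 0 N
  simpa using h

theorem le_trdeg_iff {S : Set ℂ} {N : ℕ} :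
    (N : Cardinal) ≤ Algebra.trdeg ℚ (IntermediateField.adjoin ℚ S) + c ↔
      (N : ℕ∞) ≤ (MK (⊥ : IntermediateField ℚ ℂ)).eRk S + c := by
  have h2 : Cardinal.toENat (Algebra.trdeg ℚ (IntermediateField.adjoin ℚ S)) =
      (Pool.Agent.TH813.Rel.MK ℚ).eRk S := Pool.Agent.TH813.Rel.toENat_trdeg (k := ℚ) _
  rw [← Cardinal.natCast_le_toENat, map_add, h2, ← Pool.Agent.Y685.MK_FR ℚ, MJ.FR_bot]
  simp

theorem ET_split (w : Fin (a + b) → ℂ) :
    ET w = ET (fun i => w (Fin.castAdd b i)) ∪ ET (fun i => w (Fin.natAdd a i)) := by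
  conv_lhs => rw [← append_eta w]
  exact ET_append _ _

theorem ET_eq {n : ℕ} (w : Fin n → ℂ) : ET w = range w ∪ range fun i => Complex.exp (w i) := rfl

/-- the points in terms of transcendence degrees -/
theorem mem_VG_iff {P : Fin m → ℂ} (hP : AlgebraicIndependent ℚ P) {w : Fin (a + b) → ℂ} :
    w ∈ VG (clo (⊥ : IntermediateField ℚ ℂ) (range P)) a b r k ↔
      LinearIndependent ℚ w ∧
      Algebra.trdeg ℚ (IntermediateField.adjoin ℚ ((range fun i => w (Fin.castAdd b i)) ∪
        range fun j => Complex.exp (w (Fin.natAdd a j)))) ≤ r ∧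
      Algebra.trdeg ℚ (IntermediateField.adjoin ℚ (range P ∪ (range w ∪
        range fun i => Complex.exp (w i)))) ≤ ((m + k : ℕ) : Cardinal) := by
  rw [trdeg_le_iff, trdeg_le_iff, ← ET_eq, rank_par hP (ET_finite w), Nat.cast_add m k]
  have hm : ∀ t : ℕ∞, ((m : ℕ) : ℕ∞) + t ≤ m + k ↔ t ≤ k := fun t =>
    (ENat.add_le_add_iff_left (ENat.natCast_ne_top m))
  rw [hm]
  constructor
  · intro h
    have h1 : LinearIndependent ℚ w := by
      have h2 := GT.li h
      rwa [append_eta w] at h2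
    refine ⟨h1, h.ty, ?_⟩
    rw [ET_split]
    exact h.rk
  · rintro ⟨h1, h2, h3⟩
    have i₁ : Function.Injective (Fin.castAdd b : Fin a → Fin (a + b)) := Fin.castAdd_injective a b
    have i₂ : Function.Injective (Fin.natAdd a : Fin b → Fin (a + b)) := Fin.natAdd_injective b a
    have hdis : Disjoint (range (Fin.castAdd b : Fin a → Fin (a + b))) (range (Fin.natAdd a : Fin b → Fin (a + b))) := by
      rw [Set.disjoint_left]
      rintro _ ⟨p, rfl⟩ ⟨q, hq⟩
      simp only [Fin.ext_iff, Fin.val_castAdd, Fin.val_natAdd] at hq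
      omega
    refine ⟨h1.comp _ i₁, h1.comp _ i₂, ?_, h2, ?_⟩
    · have h4 := h1.disjoint_span_image hdis
      rw [← range_comp, ← range_comp] at h4
      intro p hp hq
      exact (Submodule.disjoint_def.1 h4) p hp hq
    · rw [ET_split] at h3
      exact h3

/-- Gel'fond's statement in terms of transcendence degrees -/
theorem GE_par {P : Fin m → ℂ} (hP : AlgebraicIndependent ℚ P) :
    GE (clo (⊥ : IntermediateField ℚ ℂ) (range P)) c a b ↔
    ∀ (α : Fin a → ℂ) (l : Fin b → ℂ), (∀ i, IsAlgebraic ℚ (α i)) → LinearIndependent ℚ α →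
      (∀ j, IsAlgebraic ℚ (Complex.exp (l j))) → LinearIndependent ℚ l →
      ((m + a + b : ℕ) : Cardinal) ≤ Algebra.trdeg ℚ (IntermediateField.adjoin ℚ
        (range P ∪ ((range fun i => Complex.exp (α i)) ∪ range l))) + c := by
  refine forall_congr' fun α => forall_congr' fun l => forall_congr' fun _ => forall_congr' fun _ =>
    forall_congr' fun _ => forall_congr' fun _ => ?_
  rw [le_trdeg_iff]
  have hf : (EX α ∪ range l).Finite := (EX_finite α).union (finite_range l)
  have h1 : range P ∪ ((range fun i => Complex.exp (α i)) ∪ range l) = range P ∪ (EX α ∪ range l) := rfl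
  rw [h1, rank_par hP hf, add_assoc m a b, Nat.cast_add m, add_assoc ((m : ℕ) : ℕ∞)]
  exact (ENat.add_le_add_iff_left (ENat.natCast_ne_top m)).symm

/-- algebraic independence, with parameters -/
theorem AI_par (P : Fin m → ℂ) (v : Fin b → ℂ) :
    AlgebraicIndependent (integralClosure ℚ ℂ) (Sum.elim P v) ↔
    ((m + b : ℕ) : Cardinal) ≤ Algebra.trdeg ℚ (IntermediateField.adjoin ℚ (range P ∪ range v)) := by
  rw [← Algebra.IsIntegral.algebraicIndependent_iff ℚ, algInd_iff, Set.Sum.elim_range, Fintype.card_sum,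
    Fintype.card_fin, Fintype.card_fin, ← Pool.Agent.Y685.MK_FR ℚ, MJ.FR_bot]
  have h := le_trdeg_iff (S := range P ∪ range v) (N := m + b) (c := 0)
  simp only [Nat.cast_zero, add_zero] at h
  exact h.symm

end Pool.Agent.H445
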